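import Mathlib

/-! Signed count of pairwise discordant families of permutations of `ZMod p`, modulo `p`. -/

open Finset

namespace Pool.Agent.helper59.Kum

theorem sum_eq_sum_fixed {α : Type*} [Fintype α] [DecidableEq α] {p : ℕ} [hp : Fact p.Prime]
    (g : Equiv.Perm α) (hg : g ^ p = 1) (F : α → ZMod p) (hF : ∀ x, F (g x) = F x) :
    ∑ x, F x = ∑ x ∈ univ.filter (fun x => g x = x), F x := by
  have key : ∀ v : ZMod p, ((univ.filter fun x => F x = v).card : ZMod p) =
      ((univ.filter fun x => g x = x ∧ F x = v).card : ZMod p) := by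
    intro v
    let q : Equiv.Perm {x // F x = v} := g.subtypePerm (fun x => by rw [hF x])
    have hq : q ^ p ^ 1 = 1 := by
      rw [pow_one]
      ext x
      rw [Equiv.Perm.subtypePerm_pow]
      simp [hg]
    have h := Equiv.Perm.card_compl_support_modEq hq
    have h1 : (q.supportᶜ).card = (univ.filter fun x => g x = x ∧ F x = v).card := by
      refine Finset.card_bij (fun x _ => (x : α)) ?_ ?_ ?_
      · intro x hx
        rw [Finset.mem_compl, Equiv.Perm.mem_support, not_not] at hx
        have := congrArg Subtype.val hx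
        simp only [mem_filter, mem_univ, true_and]
        exact ⟨this, x.2⟩
      · intro x _ y _ hxy
        exact Subtype.ext hxy
      · intro x hx
        simp only [mem_filter, mem_univ, true_and] at hx
        refine ⟨⟨x, hx.2⟩, ?_, rfl⟩
        rw [Finset.mem_compl, Equiv.Perm.mem_support, not_not]
        exact Subtype.ext hx.1
    have h2 : Fintype.card {x // F x = v} = (univ.filter fun x => F x = v).card :=
      Fintype.card_subtype _
    rw [h1, h2] at h
    exact ((ZMod.natCast_eq_natCast_iff _ _ _).mpr h).symm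
  rw [← Finset.sum_fiberwise univ F F, ← Finset.sum_fiberwise (univ.filter fun x => g x = x) F F]
  refine Finset.sum_congr rfl fun v _ => ?_
  have e1 : ∑ x ∈ univ.filter (fun x => F x = v), F x =
      ((univ.filter fun x => F x = v).card : ZMod p) * v := by
    rw [Finset.sum_congr rfl (fun x hx => (mem_filter.mp hx).2), Finset.sum_const, nsmul_eq_mul]
  have e2 : ∑ x ∈ (univ.filter (fun x => g x = x)).filter (fun x => F x = v), F x =
      ((univ.filter fun x => g x = x ∧ F x = v).card : ZMod p) * v := by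
    rw [Finset.sum_congr rfl (fun x hx => (mem_filter.mp hx).2), Finset.sum_const, nsmul_eq_mul,
      Finset.filter_filter]
  rw [e1, e2, key]

section

variable {p : ℕ} [hp : Fact p.Prime] {W : Type*} [Fintype W] [DecidableEq W]

/-- pairwise discordant families -/
def Disc {X : Type*} (σ : W → Equiv.Perm X) : Prop := ∀ w w', w ≠ w' → ∀ x, σ w x ≠ σ w' x

/-- translation by one -/
def tr1 (p : ℕ) : Equiv.Perm (ZMod p) := Equiv.addRight 1

theorem tr1_pow (k : ℕ) (x : ZMod p) : ((tr1 p) ^ k) x = x + k := by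
  induction k with
  | zero => simp
  | succ k ih =>
    rw [pow_succ', Equiv.Perm.mul_apply, ih]
    simp [tr1, add_assoc]

theorem tr1_order : (tr1 p) ^ p = 1 := by
  ext x
  rw [tr1_pow]
  simp

theorem sign_addRight (h2 : p ≠ 2) (b : ZMod p) :
    Equiv.Perm.sign (Equiv.addRight b : Equiv.Perm (ZMod p)) = 1 := by
  have h1 : (Equiv.addRight b : Equiv.Perm (ZMod p)) = (tr1 p) ^ b.val := by
    ext x
    rw [tr1_pow, ZMod.natCast_zmod_val]
    rfl
  have h3 : Equiv.Perm.sign (tr1 p) = 1 := by
    have h4 : (Equiv.Perm.sign (tr1 p)) ^ p = 1 := by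
      rw [← map_pow, tr1_order, map_one]
    have hodd : Odd p := hp.out.odd_of_ne_two h2
    rcases Int.units_eq_one_or (Equiv.Perm.sign (tr1 p)) with h | h
    · exact h
    · rw [h, hodd.neg_one_pow] at h4
      exact absurd h4 (by decide)
  rw [h1, map_pow, h3, one_pow]

/-- conjugation of families -/
def conjFam (c : Equiv.Perm (ZMod p)) : Equiv.Perm (W → Equiv.Perm (ZMod p)) where
  toFun := fun σ w => c * σ w * c⁻¹
  invFun := fun σ w => c⁻¹ * σ w * c
  left_inv := fun σ => by
    funext w
    simp [mul_assoc]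
  right_inv := fun σ => by
    funext w
    simp [mul_assoc]

theorem conjFam_pow (c : Equiv.Perm (ZMod p)) (k : ℕ) (σ : W → Equiv.Perm (ZMod p)) (w : W) :
    ((conjFam c ^ k) σ) w = c ^ k * σ w * (c ^ k)⁻¹ := by
  induction k with
  | zero => simp
  | succ k ih =>
    rw [pow_succ', Equiv.Perm.mul_apply]
    show c * ((conjFam c ^ k) σ) w * c⁻¹ = _
    rw [ih, pow_succ']
    simp only [mul_inv_rev, mul_assoc]

theorem comm_tr1 {τ : Equiv.Perm (ZMod p)} (h : tr1 p * τ * (tr1 p)⁻¹ = τ) :
    τ = Equiv.addRight (τ 0) := by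
  have h1 : ∀ x, τ (x + 1) = τ x + 1 := by
    intro x
    have := congrArg (fun f : Equiv.Perm (ZMod p) => f (x + 1)) h
    simp only [Equiv.Perm.mul_apply] at this
    have h2 : (tr1 p)⁻¹ (x + 1) = x := by
      rw [Equiv.Perm.inv_eq_iff_eq]
      rfl
    rw [h2] at this
    exact this.symm
  have h3 : ∀ k : ℕ, τ (k : ZMod p) = (k : ZMod p) + τ 0 := by
    intro k
    induction k with
    | zero => simp
    | succ k ih =>
      push_cast
      rw [h1, ih]
      ring
  ext x
  have := h3 x.val
  rw [ZMod.natCast_zmod_val] at this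
  rw [this]
  rfl

open Classical in
/-- The signed number of pairwise discordant families normalised at `w0`. -/
noncomputable def cnt0 (p : ℕ) [Fact p.Prime] (W : Type*) [Fintype W] [DecidableEq W] (w0 : W) :
    ℤ :=
  ∑ σ : W → Equiv.Perm (ZMod p), if σ w0 = 1 ∧ Disc σ then
    ∏ w, (Equiv.Perm.sign (σ w) : ℤ) else 0

open Classical in
theorem cnt0_eq (h2 : p ≠ 2) (w0 : W) : ((cnt0 p W w0 : ℤ) : ZMod p) =
    ((univ.filter fun b : W → ZMod p => b w0 = 0 ∧ Function.Injective b).card : ZMod p) := by
  unfold cnt0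
  rw [Int.cast_sum]
  have hF := sum_eq_sum_fixed (p := p) (conjFam (W := W) (tr1 p))
    (by
      apply Equiv.ext
      intro σ
      funext w
      rw [conjFam_pow, tr1_order]
      simp)
    (fun σ : W → Equiv.Perm (ZMod p) => (((if σ w0 = 1 ∧ Disc σ then
      ∏ w, (Equiv.Perm.sign (σ w) : ℤ) else 0 : ℤ)) : ZMod p))
    (by
      intro σ
      have e1 : (conjFam (W := W) (tr1 p) σ) w0 = 1 ↔ σ w0 = 1 := by
        show tr1 p * σ w0 * (tr1 p)⁻¹ = 1 ↔ _
        constructor
        · intro h
          have : σ w0 = (tr1 p)⁻¹ * (tr1 p * σ w0 * (tr1 p)⁻¹) * tr1 p := by simp [mul_assoc]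
          rw [this, h]
          simp
        · intro h
          rw [h]
          simp
      have e2 : Disc (conjFam (W := W) (tr1 p) σ) ↔ Disc σ := by
        constructor
        · intro h w w' hne x hx
          apply h w w' hne (tr1 p x)
          show tr1 p (σ w ((tr1 p)⁻¹ (tr1 p x))) = tr1 p (σ w' ((tr1 p)⁻¹ (tr1 p x)))
          simp [hx]
        · intro h w w' hne x hx
          apply h w w' hne ((tr1 p)⁻¹ x)
          exact (tr1 p).injective hx
      have e3 : ∀ w, Equiv.Perm.sign ((conjFam (W := W) (tr1 p) σ) w) =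
          Equiv.Perm.sign (σ w) := by
        intro w
        show Equiv.Perm.sign (tr1 p * σ w * (tr1 p)⁻¹) = _
        rw [Equiv.Perm.sign_mul, Equiv.Perm.sign_mul, Equiv.Perm.sign_inv,
          mul_comm (Equiv.Perm.sign (tr1 p)), mul_assoc, Int.units_mul_self, mul_one]
      simp only [e1, e2, e3])
  rw [hF, ← Finset.sum_filter_add_sum_filter_not _ (fun σ : W → Equiv.Perm (ZMod p) =>
    σ w0 = 1 ∧ Disc σ)]
  have hz : ∑ x ∈ (univ.filter fun x => (conjFam (W := W) (tr1 p)) x = x).filter
      (fun σ => ¬ (σ w0 = 1 ∧ Disc σ)),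
      (((if x w0 = 1 ∧ Disc x then ∏ w, (Equiv.Perm.sign (x w) : ℤ) else 0 : ℤ)) : ZMod p) = 0 := by
    apply Finset.sum_eq_zero
    intro σ hσ
    rw [if_neg (mem_filter.mp hσ).2]
    simp
  rw [hz, add_zero]
  have h3 : ∀ σ ∈ (univ.filter fun x => (conjFam (W := W) (tr1 p)) x = x).filter
      (fun σ => (σ w0 = 1 ∧ Disc σ)),
      (((if σ w0 = 1 ∧ Disc σ then ∏ w, (Equiv.Perm.sign (σ w) : ℤ) else 0 : ℤ)) : ZMod p) =
      1 := by
    intro σ hσ
    rw [mem_filter, mem_filter] at hσ
    rw [if_pos hσ.2]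
    have h4 : ∀ w, Equiv.Perm.sign (σ w) = 1 := by
      intro w
      have h5 : tr1 p * σ w * (tr1 p)⁻¹ = σ w := congrFun hσ.1.2 w
      rw [comm_tr1 h5]
      exact sign_addRight h2 _
    simp [h4]
  rw [Finset.sum_congr rfl h3, Finset.sum_const, nsmul_eq_mul, mul_one]
  congr 1
  refine Finset.card_bij (fun σ _ w => σ w 0) ?_ ?_ ?_
  · intro σ hσ
    rw [mem_filter, mem_filter] at hσ
    rw [mem_filter]
    refine ⟨mem_univ _, by show σ w0 0 = 0; rw [hσ.2.1]; rfl, ?_⟩
    intro w w' hww
    by_contra hne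
    exact hσ.2.2 w w' hne 0 hww
  · intro σ hσ σ' hσ' h
    rw [mem_filter, mem_filter] at hσ hσ'
    funext w
    have h5 : tr1 p * σ w * (tr1 p)⁻¹ = σ w := congrFun hσ.1.2 w
    have h6 : tr1 p * σ' w * (tr1 p)⁻¹ = σ' w := congrFun hσ'.1.2 w
    rw [comm_tr1 h5, comm_tr1 h6]
    have h7 : σ w 0 = σ' w 0 := congrFun h w
    rw [h7]
  · intro b hb
    rw [mem_filter] at hb
    refine ⟨fun w => Equiv.addRight (b w), ?_, ?_⟩
    · rw [mem_filter, mem_filter]
      refine ⟨⟨mem_univ _, ?_⟩, ?_, ?_⟩
      · funext w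
        show tr1 p * Equiv.addRight (b w) * (tr1 p)⁻¹ = Equiv.addRight (b w)
        rw [mul_inv_eq_iff_eq_mul]
        ext x
        show x + b w + 1 = x + 1 + b w
        ring
      · show Equiv.addRight (b w0) = 1
        rw [hb.2.1]
        ext x
        simp
      · intro w w' hne x hx
        apply hne
        apply hb.2.2
        have : x + b w = x + b w' := hx
        exact add_left_cancel this
    · funext w
      simp

open Classical in
theorem cnt0_ne_zero (h2 : p ≠ 2) (w0 : W) (hW : Fintype.card W ≤ p) :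
    ((cnt0 p W w0 : ℤ) : ZMod p) ≠ 0 := by
  rw [cnt0_eq h2 w0]
  have h1 : (univ.filter fun b : W → ZMod p => b w0 = 0 ∧ Function.Injective b).card =
      Fintype.card ({w : W // w ≠ w0} ↪ {x : ZMod p // x ≠ 0}) := by
    symm
    rw [← Finset.card_univ]
    refine Finset.card_bij (fun f _ w => if h : w = w0 then 0 else (f ⟨w, h⟩ : ZMod p)) ?_ ?_ ?_
    · intro f _
      rw [mem_filter]
      refine ⟨mem_univ _, by simp, ?_⟩
      intro w w' hww
      simp only at hww
      by_cases h : w = w0
      · by_cases h' : w' = w0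
        · rw [h, h']
        · rw [dif_pos h, dif_neg h'] at hww
          exact absurd hww.symm (f ⟨w', h'⟩).2
      · by_cases h' : w' = w0
        · rw [dif_neg h, dif_pos h'] at hww
          exact absurd hww (f ⟨w, h⟩).2
        · rw [dif_neg h, dif_neg h'] at hww
          have := f.injective (Subtype.ext hww)
          exact congrArg Subtype.val this
    · intro f _ f' _ h
      ext ⟨w, hw⟩
      have := congrFun h w
      simp only [dif_neg hw] at this
      exact this
    · intro b hb
      rw [mem_filter] at hb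
      refine ⟨⟨fun w => ⟨b w, ?_⟩, ?_⟩, mem_univ _, ?_⟩
      · intro h
        apply w.2
        apply hb.2.2
        rw [h, hb.2.1]
      · intro w w' hww
        have := congrArg Subtype.val hww
        exact Subtype.ext (hb.2.2 this)
      · funext w
        by_cases h : w = w0
        · simp [h, hb.2.1]
        · simp [h]
  rw [h1, Fintype.card_embedding_eq]
  intro h0
  rw [ZMod.natCast_eq_zero_iff] at h0
  have h3 : Fintype.card {x : ZMod p // x ≠ 0} = p - 1 := by
    rw [Fintype.card_subtype_compl, ZMod.card, Fintype.card_unique]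
  have h4 : Fintype.card {w : W // w ≠ w0} = Fintype.card W - 1 := by
    rw [Fintype.card_subtype_compl]
    simp
  rw [h3, h4] at h0
  have h5 : (p - 1).descFactorial (Fintype.card W - 1) ∣ (p - 1).factorial := by
    rw [← Nat.factorial_mul_descFactorial (show Fintype.card W - 1 ≤ p - 1 by omega)]
    exact Dvd.intro_left _ rfl
  have h6 := h0.trans h5
  rw [hp.out.dvd_factorial] at h6
  have := hp.out.two_le
  omega

end

end Pool.Agent.helper59.Kum
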