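import Pool.Agent.helper15.KTwo
import Pool.Agent.helper59.Kum.Fix

/-! `GoodN n i` for every even `n` and every `i` smaller than a prime `p ≤ n + 1`. -/

open Finset

namespace Pool.Agent.helper59.Kum

open Pool.Agent.helper15.Kumar

section lam

variable {W I C : Type*} [Fintype W] [DecidableEq W] [Fintype I] [DecidableEq I] [Fintype C]
  [DecidableEq C]

theorem good_of_lam {K : Type*} [Field K] [CharZero K] {p : ℕ} [hp : Fact p.Prime]
    (hC : Fintype.card C = p - 1) (hI : Fintype.card I < p) (lam : W → I → W ⊕ C)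
    (hlam : ∀ r, Function.Injective fun w => lam w r)
    (hZ : ((∑ σ : W → Equiv.Perm I, (∏ w, (Equiv.Perm.sign (σ w) : ℤ)) *
        (if ∀ w w' r r', lam w r = lam w' r' → σ w r = σ w' r' → r = r' then 1 else 0) : ℤ) :
          ZMod p) ≠ 0) : Good K I (W ⊕ C) := by
  classical
  have hθ : ∀ r, ∃ e : Equiv.Perm (W ⊕ C), ∀ w, e (Sum.inl w) = lam w r := fun r =>
    exists_perm_extend (X := W ⊕ C) (U := W) Sum.inl Sum.inl_injective (fun w => lam w r) (hlam r)
  choose θ hθ using hθ
  have key := sum_ZZ (p := p) hC θ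
  have h1 : (∑ κ : W ⊕ C → Equiv.Perm I, ∏ w : W, eps (fun r => κ (θ r (Sum.inl w)) r) : ℤ) =
      ∑ κ : W ⊕ C → Equiv.Perm I, ∏ w : W, eps (fun r => κ (lam w r) r) := by
    refine Finset.sum_congr rfl fun κ _ => Finset.prod_congr rfl fun w _ => ?_
    simp_rw [hθ]
  rw [h1, sum_kappa lam hlam] at key
  by_contra hng
  have hz : ∀ τ : I → Equiv.Perm (W ⊕ C), ZZ τ = 0 := by
    intro τ
    by_contra hτ
    exact hng (good_of_ZZ_ne_zero τ hτ)
  simp_rw [hz] at key
  simp only [Int.cast_zero, Finset.sum_const_zero] at key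
  have h6 : ((∏ a, hcard lam a : ℕ) : ZMod p) ≠ 0 := by
    rw [Nat.cast_prod]
    rw [Finset.prod_ne_zero_iff]
    intro a _ h0
    rw [ZMod.natCast_eq_zero_iff] at h0
    have h7 := h0.trans (hcard_dvd lam a)
    rw [hp.out.dvd_factorial] at h7
    omega
  have h11 : ((-1 : ZMod p) ^ Fintype.card I) ≠ 0 := by
    apply pow_ne_zero
    exact neg_ne_zero.mpr one_ne_zero
  rw [Int.cast_mul, Int.cast_natCast] at key
  exact (mul_ne_zero h11 (mul_ne_zero h6 hZ)) key.symm

end lam

section dec

variable {p : ℕ} [hp : Fact p.Prime]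

/-- nonzero residues -/
abbrev NZ (p : ℕ) : Type := {x : ZMod p // x ≠ 0}

/-- assemble a permutation from the preimage of `0` and a permutation of the nonzero residues -/
def asm (a : ZMod p) (σ : Equiv.Perm (NZ p)) : Equiv.Perm (ZMod p) :=
  Equiv.Perm.ofSubtype σ * Equiv.addRight (-a)

theorem asm_self (a : ZMod p) (σ : Equiv.Perm (NZ p)) : asm a σ a = 0 := by
  show Equiv.Perm.ofSubtype σ (a + -a) = 0
  rw [add_neg_cancel]
  exact Equiv.Perm.ofSubtype_apply_of_not_mem σ (by simp)

theorem asm_add (a : ZMod p) (σ : Equiv.Perm (NZ p)) (r : NZ p) :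
    asm a σ (a + r) = (σ r : ZMod p) := by
  show Equiv.Perm.ofSubtype σ (a + r + -a) = _
  have : a + (r : ZMod p) + -a = r := by ring
  rw [this]
  exact Equiv.Perm.ofSubtype_apply_coe σ r

theorem asm_sign (h2 : p ≠ 2) (a : ZMod p) (σ : Equiv.Perm (NZ p)) :
    Equiv.Perm.sign (asm a σ) = Equiv.Perm.sign σ := by
  unfold asm
  rw [Equiv.Perm.sign_mul, sign_addRight h2, mul_one]
  exact Equiv.Perm.sign_ofSubtype σ

theorem asm_bij : Function.Bijective (fun q : ZMod p × Equiv.Perm (NZ p) => asm q.1 q.2) := by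
  constructor
  · rintro ⟨a, σ⟩ ⟨a', σ'⟩ h
    simp only at h
    have ha : a = a' := by
      apply (asm a σ).injective
      rw [asm_self, h, asm_self]
    subst ha
    have hs : σ = σ' := by
      ext r
      have := congrArg (fun f : Equiv.Perm (ZMod p) => f (a + r)) h
      simp only [asm_add] at this
      exact this
    rw [hs]
  · intro τ
    obtain ⟨a, ha⟩ := τ.surjective 0
    have hfix : ∀ x : ZMod p, x ≠ 0 ↔ (τ * Equiv.addRight a) x ≠ 0 := by
      intro x
      have h1 : (τ * Equiv.addRight a) x = τ (x + a) := rfl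
      rw [h1]
      constructor
      · intro hx h
        apply hx
        have h3 : x + a = a := τ.injective (h.trans ha.symm)
        exact left_eq_add.mp (by rw [add_comm]; exact h3.symm)
      · intro hx h
        apply hx
        rw [h, zero_add, ha]
    refine ⟨(a, (τ * Equiv.addRight a).subtypePerm (fun x => (hfix x).symm)), ?_⟩
    ext x
    by_cases hx : x = a
    · subst hx
      simp only
      rw [asm_self, ha]
    · have h1 : x - a ≠ 0 := sub_ne_zero.mpr hx
      have h2 : x = a + ((⟨x - a, h1⟩ : NZ p) : ZMod p) := by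
        show x = a + (x - a)
        ring
      simp only
      conv_lhs => rw [h2]
      rw [asm_add]
      show τ (x - a + a) = τ x
      rw [sub_add_cancel]

theorem card_fix0 : (univ.filter fun ρ : Equiv.Perm (ZMod p) => ρ 0 = 0).card =
    (p - 1).factorial := by
  have h3 : Fintype.card (NZ p) = p - 1 := by
    rw [Fintype.card_subtype_compl, ZMod.card]
    simp
  rw [← h3, ← Fintype.card_perm, ← Finset.card_univ]
  symm
  refine Finset.card_bij (fun σ _ => asm 0 σ) ?_ ?_ ?_
  · intro σ _
    rw [mem_filter]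
    exact ⟨mem_univ _, asm_self 0 σ⟩
  · intro σ _ σ' _ h
    have := asm_bij.1 (a₁ := (0, σ)) (a₂ := (0, σ')) h
    exact (Prod.ext_iff.mp this).2
  · intro ρ hρ
    rw [mem_filter] at hρ
    obtain ⟨⟨a, σ⟩, h⟩ := asm_bij.2 ρ
    simp only at h
    have ha : a = 0 := by
      apply ρ.injective
      rw [hρ.2, ← h, asm_self]
    subst ha
    exact ⟨σ, mem_univ _, h⟩

variable {W : Type*} [Fintype W] [DecidableEq W]

open Classical in
/-- signed number of pairwise discordant families with `τ w0 0 = 0` -/
noncomputable def cntA (p : ℕ) [Fact p.Prime] (W : Type*) [Fintype W] [DecidableEq W] (w0 : W) :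
    ℤ :=
  ∑ τ : W → Equiv.Perm (ZMod p), if τ w0 0 = 0 ∧ Disc τ then
    ∏ w, (Equiv.Perm.sign (τ w) : ℤ) else 0

open Classical in
theorem cntA_eq (w0 : W) (hW : Even (Fintype.card W)) :
    cntA p W w0 = ((p - 1).factorial : ℤ) * cnt0 p W w0 := by
  have h1 : cntA p W w0 = ∑ ρ : Equiv.Perm (ZMod p), ∑ τ : W → Equiv.Perm (ZMod p),
      if τ w0 = ρ then (if ρ 0 = 0 ∧ Disc τ then ∏ w, (Equiv.Perm.sign (τ w) : ℤ) else 0)
        else 0 := by
    rw [Finset.sum_comm]
    unfold cntA
    refine Finset.sum_congr rfl fun τ _ => ?_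
    rw [Finset.sum_ite_eq univ (τ w0)]
    simp
  have h2 : ∀ ρ : Equiv.Perm (ZMod p), (∑ τ : W → Equiv.Perm (ZMod p),
      if τ w0 = ρ then (if ρ 0 = 0 ∧ Disc τ then ∏ w, (Equiv.Perm.sign (τ w) : ℤ) else 0)
        else 0) = if ρ 0 = 0 then cnt0 p W w0 else 0 := by
    intro ρ
    by_cases hρ : ρ 0 = 0
    · rw [if_pos hρ]
      let e : Equiv.Perm (W → Equiv.Perm (ZMod p)) :=
        Equiv.piCongrRight fun _ : W => Equiv.mulLeft ρ
      rw [← Equiv.sum_comp e]
      unfold cnt0
      refine Finset.sum_congr rfl fun τ _ => ?_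
      have e1 : ∀ w, e τ w = ρ * τ w := fun w => rfl
      have e2 : (e τ w0 = ρ) ↔ τ w0 = 1 := by
        rw [e1]
        exact mul_eq_left
      have e3 : Disc (e τ) ↔ Disc τ := by
        constructor
        · intro h w w' hne x hx
          apply h w w' hne x
          rw [e1, e1, Equiv.Perm.mul_apply, Equiv.Perm.mul_apply, hx]
        · intro h w w' hne x hx
          rw [e1, e1, Equiv.Perm.mul_apply, Equiv.Perm.mul_apply] at hx
          exact h w w' hne x (ρ.injective hx)
      have e4 : ∏ w, (Equiv.Perm.sign (e τ w) : ℤ) = ∏ w, (Equiv.Perm.sign (τ w) : ℤ) := by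
        simp only [e1, Equiv.Perm.sign_mul, Units.val_mul, Finset.prod_mul_distrib,
          Finset.prod_const, Finset.card_univ]
        obtain ⟨k, hk⟩ := hW
        rw [hk, pow_add, ← mul_pow, ← Units.val_mul, Int.units_mul_self]
        simp
      rw [e4]
      simp only [e2, e3, hρ, true_and]
      by_cases h5 : τ w0 = 1
      · simp [h5]
      · simp [h5]
    · rw [if_neg hρ]
      apply Finset.sum_eq_zero
      intro τ _
      by_cases h5 : τ w0 = ρ
      · rw [if_pos h5, if_neg (fun h => hρ h.1)]
      · rw [if_neg h5]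
  rw [h1, Finset.sum_congr rfl fun ρ _ => h2 ρ, ← Finset.sum_filter, Finset.sum_const, card_fix0,
    nsmul_eq_mul]

open Classical in
theorem cntA_dec (h2 : p ≠ 2) (w0 : W) : cntA p W w0 = ∑ a : W → ZMod p,
    ∑ σ : W → Equiv.Perm (NZ p), if a w0 = 0 ∧ Disc (fun w => asm (a w) (σ w)) then
      ∏ w, (Equiv.Perm.sign (σ w) : ℤ) else 0 := by
  unfold cntA
  rw [← Fintype.sum_prod_type']
  symm
  let e : (W → ZMod p) × (W → Equiv.Perm (NZ p)) → (W → Equiv.Perm (ZMod p)) :=
    fun q w => asm (q.1 w) (q.2 w)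
  have he : Function.Bijective e := by
    constructor
    · rintro ⟨a, σ⟩ ⟨a', σ'⟩ h
      have h1 : ∀ w, a w = a' w ∧ σ w = σ' w := by
        intro w
        have := asm_bij.1 (a₁ := (a w, σ w)) (a₂ := (a' w, σ' w)) (congrFun h w)
        exact Prod.ext_iff.mp this
      have ha : a = a' := funext fun w => (h1 w).1
      have hs : σ = σ' := funext fun w => (h1 w).2
      rw [ha, hs]
    · intro τ
      choose q hq using fun w => asm_bij.2 (τ w)
      exact ⟨(fun w => (q w).1, fun w => (q w).2), funext hq⟩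
  refine Fintype.sum_bijective e he _ _ ?_
  rintro ⟨a, σ⟩
  have e1 : (e (a, σ)) w0 0 = 0 ↔ a w0 = 0 := by
    constructor
    · intro h
      have : asm (a w0) (σ w0) 0 = asm (a w0) (σ w0) (a w0) := by
        rw [asm_self]; exact h
      exact ((asm (a w0) (σ w0)).injective this).symm
    · intro h
      show asm (a w0) (σ w0) 0 = 0
      rw [h, asm_self]
  have e2 : ∀ w, Equiv.Perm.sign (e (a, σ) w) = Equiv.Perm.sign (σ w) := fun w =>
    asm_sign h2 _ _
  simp only [e1, e2]
  rfl

end dec

section main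

variable {p : ℕ} [hp : Fact p.Prime] {W : Type*} [Fintype W] [DecidableEq W]

theorem disc_asm_inj {a : W → ZMod p} {σ : W → Equiv.Perm (NZ p)}
    (h : Disc (fun w => asm (a w) (σ w))) : Function.Injective a := by
  intro w w' hww
  by_contra hne
  apply h w w' hne (a w)
  show asm (a w) (σ w) (a w) = asm (a w') (σ w') (a w)
  rw [asm_self, hww, asm_self]

theorem disc_asm_iff {a : W → ZMod p} (ha : Function.Injective a)
    {σ : W → Equiv.Perm (NZ p)} : Disc (fun w => asm (a w) (σ w)) ↔
    ∀ w w' (r r' : NZ p), a w + r = a w' + r' → σ w r = σ w' r' → r = r' := by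
  constructor
  · intro h w w' r r' h1 h2
    by_cases hne : w = w'
    · subst hne
      exact (σ w).injective h2
    · exfalso
      apply h w w' hne (a w + r)
      show asm (a w) (σ w) (a w + r) = asm (a w') (σ w') (a w + r)
      rw [asm_add, h1, asm_add, h2]
  · intro h w w' hne x hx
    have hx' : asm (a w) (σ w) x = asm (a w') (σ w') x := hx
    by_cases h1 : x = a w
    · by_cases h2 : x = a w'
      · exact hne (ha (h1.symm.trans h2))
      · rw [h1, asm_self, ← h1] at hx'
        have h3 : asm (a w') (σ w') (a w') = asm (a w') (σ w') x := by rw [asm_self, hx']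
        exact h2 ((asm (a w') (σ w')).injective h3).symm
    · by_cases h2 : x = a w'
      · rw [h2, asm_self, ← h2] at hx'
        have h3 : asm (a w) (σ w) x = asm (a w) (σ w) (a w) := by rw [asm_self, hx']
        exact h1 ((asm (a w) (σ w)).injective h3)
      · have h3 : x = a w + ((⟨x - a w, sub_ne_zero.mpr h1⟩ : NZ p) : ZMod p) := by
          show x = a w + (x - a w)
          ring
        have h4 : x = a w' + ((⟨x - a w', sub_ne_zero.mpr h2⟩ : NZ p) : ZMod p) := by
          show x = a w' + (x - a w')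
          ring
        have h5 : σ w ⟨x - a w, sub_ne_zero.mpr h1⟩ = σ w' ⟨x - a w', sub_ne_zero.mpr h2⟩ := by
          apply Subtype.ext
          rw [← asm_add (a w), ← asm_add (a w'), ← h3, ← h4]
          exact hx'
        have h6 := h w w' _ _ (h3.symm.trans h4) h5
        have h7 := congrArg Subtype.val h6
        simp only at h7
        exact hne (ha (sub_right_injective h7))

theorem good_block {K : Type*} [Field K] [CharZero K] (h2 : p ≠ 2) {C : Type*} [Fintype C]
    [DecidableEq C] (hC : Fintype.card C = p - 1) (hW : Even (Fintype.card W))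
    (hWp : Fintype.card W ≤ p) : Good K (NZ p) (W ⊕ C) := by
  classical
  have hI : Fintype.card (NZ p) < p := by
    rw [Fintype.card_subtype_compl, ZMod.card]
    have := hp.out.pos
    simp
    omega
  by_cases hne : Nonempty W
  · obtain ⟨w0⟩ := hne
    have hpos : 0 < Fintype.card W := Fintype.card_pos_iff.mpr ⟨w0⟩
    have hA : ((cntA p W w0 : ℤ) : ZMod p) ≠ 0 := by
      rw [cntA_eq w0 hW, Int.cast_mul]
      refine mul_ne_zero ?_ (cnt0_ne_zero h2 w0 hWp)
      rw [Int.cast_natCast]
      intro h0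
      rw [ZMod.natCast_eq_zero_iff, hp.out.dvd_factorial] at h0
      have := hp.out.pos
      omega
    rw [cntA_dec h2, Int.cast_sum] at hA
    obtain ⟨a, -, ha⟩ := Finset.exists_ne_zero_of_sum_ne_zero hA
    have hinj : Function.Injective a := by
      by_contra hcon
      apply ha
      have : ∑ σ : W → Equiv.Perm (NZ p), (if a w0 = 0 ∧ Disc (fun w => asm (a w) (σ w)) then
          ∏ w, (Equiv.Perm.sign (σ w) : ℤ) else 0) = 0 := by
        apply Finset.sum_eq_zero
        intro σ _
        rw [if_neg]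
        rintro ⟨_, h⟩
        exact hcon (disc_asm_inj h)
      rw [this]
      simp
    have ha0 : a w0 = 0 := by
      by_contra hcon
      apply ha
      have : ∑ σ : W → Equiv.Perm (NZ p), (if a w0 = 0 ∧ Disc (fun w => asm (a w) (σ w)) then
          ∏ w, (Equiv.Perm.sign (σ w) : ℤ) else 0) = 0 := by
        apply Finset.sum_eq_zero
        intro σ _
        rw [if_neg]
        rintro ⟨h, _⟩
        exact hcon h
      rw [this]
      simp
    have hcard : Fintype.card (ZMod p) ≤ Fintype.card (W ⊕ C) := by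
      rw [ZMod.card, Fintype.card_sum, hC]
      omega
    obtain ⟨ι⟩ := Function.Embedding.nonempty_of_card_le hcard
    refine good_of_lam (p := p) hC hI (fun w r => ι (a w + r)) ?_ ?_
    · intro r w w' h
      have := ι.injective h
      exact hinj (add_right_cancel this)
    · intro h0
      apply ha
      refine Eq.trans ?_ h0
      congr 1
      refine Finset.sum_congr rfl fun σ _ => ?_
      have h3 : (∀ w w' r r', ι (a w + (r : NZ p)) = ι (a w' + (r' : NZ p)) →
          σ w r = σ w' r' → r = r') ↔ Disc (fun w => asm (a w) (σ w)) := by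
        rw [disc_asm_iff hinj]
        constructor
        · intro h w w' r r' h1 h2
          exact h w w' r r' (by rw [h1]) h2
        · intro h w w' r r' h1 h2
          exact h w w' r r' (ι.injective h1) h2
      by_cases h4 : Disc (fun w => asm (a w) (σ w))
      · rw [if_pos ⟨ha0, h4⟩, if_pos (h3.mpr h4), mul_one]
      · rw [if_neg (fun h => h4 h.2), if_neg (fun h => h4 (h3.mp h)), mul_zero]
  · -- W is empty
    have hE : IsEmpty W := not_nonempty_iff.mp hne
    refine good_of_lam (p := p) hC hI (fun w => hE.elim w) (fun r w => hE.elim w) ?_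
    have : ∑ σ : W → Equiv.Perm (NZ p), (∏ w, (Equiv.Perm.sign (σ w) : ℤ)) *
        (if ∀ w w' r r', (hE.elim w : NZ p → W ⊕ C) r = (hE.elim w' : NZ p → W ⊕ C) r' →
          σ w r = σ w' r' → r = r' then 1 else 0) = 1 := by
      rw [Fintype.sum_unique]
      rw [if_pos (fun w => hE.elim w)]
      simp
    rw [this]
    simp

/-- blocks `p - 1 + w`, `w` even, `w ≤ p` -/
theorem goodN_block (h2 : p ≠ 2) (w : ℕ) (hw : Even w) (hwp : w ≤ p) :
    GoodN (w + (p - 1)) (p - 1) := by
  have h := good_block (K := ℂ) (p := p) (W := Fin w) (C := Fin (p - 1)) h2 (by simp) (by simpa)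
    (by simpa)
  have hc : Fintype.card (NZ p) = p - 1 := by
    rw [Fintype.card_subtype_compl, ZMod.card]
    simp
  exact h.congr (Fintype.equivFinOfCardEq hc) finSumFinEquiv

end main

end Pool.Agent.helper59.Kum
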